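import Pool.Agent.helper70.Oct.Defs
import Pool.Agent.helper17.Oct.A1

set_option autoImplicit false
set_option linter.all false

/-!
# Module OCT-A2: lifts of the ovals and of their interiors from an abstract cover
-/

open MvPolynomial Set Filter Topology

namespace Oct

namespace A2

section
variable {f : V3 → ℝ} {par : List ℕ} {ι : Type} [Finite ι] {K : ι → Set V3}
    {lab : ι → S3 → ℤ} {rk : ι → S3 → ℕ} {inv : ι → ι}

/-- union of the regions `A` and of the ovals `B` -/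
def RR (f : V3 → ℝ) {ι : Type} (K : ι → Set V3) (lab : ι → S3 → ℤ) (A B : ℤ → Prop) : Set V3 :=
  {x : V3 | (∃ l, A l ∧ x ∈ Rg f K lab l) ∨ ∃ o, B o ∧ x ∈ Og f K lab o}

theorem mem_rg (h : Cover f par K lab rk inv) {l : ℤ} {x : V3} (hx : x ∈ Rg f K lab l)
    {A B : ℤ → Prop} : x ∈ RR f K lab A B ↔ A l := by
  constructor
  · rintro (⟨l', hA, hx'⟩ | ⟨o, hB, hx'⟩)
    · by_cases hl : l = l'
      · rwa [hl]
      · exact absurd hx' (Set.disjoint_left.1 (rg_rg h hl) hx)
    · exact absurd hx' (Set.disjoint_left.1 (rg_og h l o) hx)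
  · exact fun hA => Or.inl ⟨l, hA, hx⟩

theorem mem_og (h : Cover f par K lab rk inv) {l : ℤ} {x : V3} (hx : x ∈ Og f K lab l)
    {A B : ℤ → Prop} : x ∈ RR f K lab A B ↔ B l := by
  constructor
  · rintro (⟨l', hA, hx'⟩ | ⟨o, hB, hx'⟩)
    · exact absurd hx (Set.disjoint_left.1 (rg_og h l' l) hx')
    · by_cases hl : l = o
      · rwa [hl]
      · exact absurd hx' (Set.disjoint_left.1 (og_og h hl) hx)
  · exact fun hB => Or.inr ⟨l, hB, hx⟩

/-- every point is in a region or on an oval -/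
theorem cases_pt (h : Cover f par K lab rk inv) (x : V3) :
    (∃ l : ℤ, l.natAbs ≤ par.length ∧ x ∈ Rg f K lab l) ∨
    (∃ o : ℤ, o ≠ 0 ∧ o.natAbs ≤ par.length ∧ x ∈ Og f K lab o) := by
  by_cases hx : f x = 0
  · exact Or.inr (og_cover h hx)
  · exact Or.inl (rg_cover h hx)

theorem og_as_RR (f : V3 → ℝ) {ι : Type} (K : ι → Set V3) (lab : ι → S3 → ℤ) (o : ℤ) :
    Og f K lab o = RR f K lab (fun _ => False) (fun l => l = o) := by
  ext x
  constructor
  · exact fun hx => Or.inr ⟨o, rfl, hx⟩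
  · rintro (⟨l, hA, -⟩ | ⟨l, hl, hx⟩)
    · exact hA.elim
    · exact hl ▸ hx

theorem RR_compl (h : Cover f par K lab rk inv) (A B : ℤ → Prop) :
    (RR f K lab A B)ᶜ = RR f K lab (fun l => l.natAbs ≤ par.length ∧ ¬ A l)
      (fun o => o ≠ 0 ∧ o.natAbs ≤ par.length ∧ ¬ B o) := by
  ext x
  rw [Set.mem_compl_iff]
  rcases cases_pt h x with ⟨l, hl, hx⟩ | ⟨o, ho, hl, hx⟩
  · rw [mem_rg h hx, mem_rg h hx]
    tauto
  · rw [mem_og h hx, mem_og h hx]
    tauto

theorem RR_union (A B A' B' : ℤ → Prop) :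
    RR f K lab A B ∪ RR f K lab A' B' = RR f K lab (fun l => A l ∨ A' l) (fun l => B l ∨ B' l) := by
  ext x
  simp only [RR, Set.mem_union, Set.mem_ofPred_eq]
  constructor
  · rintro ((⟨l, hA, hx⟩ | ⟨l, hB, hx⟩) | (⟨l, hA, hx⟩ | ⟨l, hB, hx⟩))
    · exact Or.inl ⟨l, Or.inl hA, hx⟩
    · exact Or.inr ⟨l, Or.inl hB, hx⟩
    · exact Or.inl ⟨l, Or.inr hA, hx⟩
    · exact Or.inr ⟨l, Or.inr hB, hx⟩
  · rintro (⟨l, hA | hA, hx⟩ | ⟨l, hB | hB, hx⟩)
    · exact Or.inl (Or.inl ⟨l, hA, hx⟩)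
    · exact Or.inr (Or.inl ⟨l, hA, hx⟩)
    · exact Or.inl (Or.inr ⟨l, hB, hx⟩)
    · exact Or.inr (Or.inr ⟨l, hB, hx⟩)

theorem RR_neg (h : Cover f par K lab rk inv) (A B : ℤ → Prop) :
    negV ⁻¹' RR f K lab A B = RR f K lab (fun l => A (-l)) (fun l => B (-l)) := by
  ext x
  rw [Set.mem_preimage]
  rcases cases_pt h x with ⟨l, hl, hx⟩ | ⟨o, ho, hl, hx⟩
  · rw [mem_rg h hx, mem_rg h ((rg_neg h l x).2 hx)]
  · rw [mem_og h hx, mem_og h ((og_neg h o x).2 hx)]

theorem RR_disj (h : Cover f par K lab rk inv) {A B A' B' : ℤ → Prop}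
    (hA : ∀ l, A l → ¬ A' l) (hB : ∀ l, B l → ¬ B' l) :
    Disjoint (RR f K lab A B) (RR f K lab A' B') := by
  rw [Set.disjoint_left]
  rintro x (⟨l, hAl, hx⟩ | ⟨l, hBl, hx⟩)
  · rw [mem_rg h hx]
    exact hA l hAl
  · rw [mem_og h hx]
    exact hB l hBl

theorem up_abs (h : Cover f par K lab rk inv) {l : ℤ} (hl : l ≠ 0)
    (hm : l.natAbs ≤ par.length) : (up par l).natAbs < l.natAbs := by
  rcases lt_or_gt_of_ne hl with hneg | hpos
  · have h1 := up_nonneg h (l := -l) (by omega) (by omega)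
    rw [up_neg h] at h1
    omega
  · have h1 := up_nonneg h (l := l) hpos (by omega)
    omega

/-- connectedness criterion -/
theorem conn_of (h : Cover f par K lab rk inv) (A B : ℤ → Prop) (r0 : ℤ) (hr : A r0)
    (hrange : ∀ l, A l → l.natAbs ≤ par.length) (hB : ∀ l, B l → A l ∧ l ≠ r0)
    (hstep : ∀ l, A l → l ≠ r0 → l ≠ 0 ∧ B l ∧ A (up par l)) :
    IsConnected (RR f K lab A B) := by
  have h0 : IsConnected (Rg f K lab r0) := rg_conn h (hrange r0 hr)
  have hsubR : ∀ l, A l → Rg f K lab l ⊆ RR f K lab A B := fun l hl x hx => Or.inl ⟨l, hl, hx⟩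
  have hsubO : ∀ l, B l → Og f K lab l ⊆ RR f K lab A B := fun l hl x hx => Or.inr ⟨l, hl, hx⟩
  have key : ∀ n : ℕ, ∀ l : ℤ, l.natAbs = n → A l → ∃ t, t ⊆ RR f K lab A B ∧
      Rg f K lab l ⊆ t ∧ Rg f K lab r0 ⊆ t ∧ IsPreconnected t := by
    intro n
    induction n using Nat.strong_induction_on with
    | _ n ih =>
      intro l hln hAl
      by_cases hl : l = r0
      · subst hl
        exact ⟨Rg f K lab l, hsubR l hAl, le_rfl, le_rfl, h0.isPreconnected⟩
      · obtain ⟨hl0, hBl, hAu⟩ := hstep l hAl hl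
        have hlt := up_abs h hl0 (hrange l hAl)
        obtain ⟨t, ht, ht1, ht2, ht3⟩ := ih (up par l).natAbs (by omega) (up par l) rfl hAu
        have htr := triple h hl0 (hrange l hAl)
        obtain ⟨y, hy⟩ := (rg_conn h (hrange _ hAu)).nonempty
        refine ⟨(Rg f K lab l ∪ Og f K lab l ∪ Rg f K lab (up par l)) ∪ t, ?_, ?_, ?_, ?_⟩
        · refine Set.union_subset (Set.union_subset (Set.union_subset (hsubR l hAl)
            (hsubO l hBl)) (hsubR _ hAu)) ht
        · intro x hx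
          exact Or.inl (Or.inl (Or.inl hx))
        · intro x hx
          exact Or.inr (ht2 hx)
        · exact IsPreconnected.union y (Or.inr hy) (ht1 hy) htr ht3
  obtain ⟨x0, hx0⟩ := h0.nonempty
  refine ⟨⟨x0, hsubR r0 hr hx0⟩, ?_⟩
  refine isPreconnected_of_forall x0 ?_
  rintro y (⟨l, hAl, hy⟩ | ⟨l, hBl, hy⟩)
  · obtain ⟨t, ht, ht1, ht2, ht3⟩ := key _ l rfl hAl
    exact ⟨t, ht, ht2 hx0, ht1 hy, ht3⟩
  · obtain ⟨hAl, hlr⟩ := hB l hBl
    obtain ⟨hl0, -, hAu⟩ := hstep l hAl hlr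
    obtain ⟨t, ht, ht1, ht2, ht3⟩ := key _ l rfl hAl
    have htr := triple h hl0 (hrange l hAl)
    obtain ⟨z, hz⟩ := (rg_conn h (hrange _ hAl)).nonempty
    refine ⟨(Rg f K lab l ∪ Og f K lab l ∪ Rg f K lab (up par l)) ∪ t, ?_, Or.inr (ht2 hx0),
      Or.inl (Or.inl (Or.inr hy)), ?_⟩
    · exact Set.union_subset (Set.union_subset (Set.union_subset (hsubR l hAl)
            (hsubO l hBl)) (hsubR _ hAu)) ht
    · exact IsPreconnected.union z (Or.inl (Or.inl hz)) (ht1 hz) htr ht3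

/-! ### the ancestor relation -/

theorem ancB_fuel {par : List ℕ} (ht : ∀ i < par.length, par.getD i 0 ≤ i) (a : ℕ) :
    ∀ b : ℕ, 1 ≤ b → b ≤ par.length → ∀ k k' : ℕ, b ≤ k → b ≤ k' →
      ancB par k a b = ancB par k' a b := by
  intro b
  induction b using Nat.strong_induction_on with
  | _ b ih =>
    intro hb hbm k k' hk hk'
    obtain ⟨k, rfl⟩ : ∃ j, k = j + 1 := ⟨k - 1, by omega⟩
    obtain ⟨k', rfl⟩ : ∃ j, k' = j + 1 := ⟨k' - 1, by omega⟩
    have h1 := ht (b - 1) (by omega)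
    unfold ancB
    by_cases hp : par.getD (b - 1) 0 = 0
    · rw [hp]
      simp
    · rw [ih (par.getD (b - 1) 0) (by omega) (by omega) (by omega) k k' (by omega) (by omega)]

theorem anc_iff {par : List ℕ} (ht : ∀ i < par.length, par.getD i 0 ≤ i) (a b : ℕ)
    (hb : 1 ≤ b) (hbm : b ≤ par.length) :
    ancB par par.length a b = true ↔ (par.getD (b - 1) 0 = a ∨
      (par.getD (b - 1) 0 ≠ 0 ∧ ancB par par.length a (par.getD (b - 1) 0) = true)) := by
  have h1 := ht (b - 1) (by omega)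
  obtain ⟨n, hn⟩ : ∃ n, par.length = n + 1 := ⟨par.length - 1, by omega⟩
  by_cases hp : par.getD (b - 1) 0 = 0
  · rw [hn]
    conv_lhs => unfold ancB
    rw [hp]
    simp
  · have h2 : ancB par par.length a (par.getD (b - 1) 0) = ancB par n a (par.getD (b - 1) 0) :=
      ancB_fuel ht a _ (by omega) (by omega) _ _ (by omega) (by omega)
    rw [h2, hn]
    conv_lhs => unfold ancB
    generalize par.getD (b - 1) 0 = p at *
    simp [hp]

theorem anc_lt {par : List ℕ} (ht : ∀ i < par.length, par.getD i 0 ≤ i) (a : ℕ) :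
    ∀ b : ℕ, 1 ≤ b → b ≤ par.length → ancB par par.length a b = true → a < b := by
  intro b
  induction b using Nat.strong_induction_on with
  | _ b ih =>
    intro hb hbm hab
    have h1 := ht (b - 1) (by omega)
    rcases (anc_iff ht a b hb hbm).1 hab with h2 | ⟨h2, h3⟩
    · omega
    · have := ih _ (by omega) (by omega) (by omega) h3
      omega

theorem up_cast (par : List ℕ) {b : ℕ} (hb : 1 ≤ b) :
    up par (b : ℤ) = ((par.getD (b - 1) 0 : ℕ) : ℤ) := by
  obtain ⟨n, rfl⟩ : ∃ n, b = n + 1 := ⟨b - 1, by omega⟩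
  rfl

end

/-- labels of the regions of the disc of the oval `o` -/
def DA (par : List ℕ) (o : ℕ) (l : ℤ) : Prop :=
  ∃ b : ℕ, l = b ∧ 1 ≤ b ∧ b ≤ par.length ∧ (b = o ∨ ancB par par.length o b = true)

/-- labels of the ovals in the disc of the oval `o` -/
def DB (par : List ℕ) (o : ℕ) (l : ℤ) : Prop :=
  ∃ b : ℕ, l = b ∧ 1 ≤ b ∧ b ≤ par.length ∧ ancB par par.length o b = true

section
variable {f : V3 → ℝ} {par : List ℕ} {ι : Type} [Finite ι] {K : ι → Set V3}
    {lab : ι → S3 → ℤ} {rk : ι → S3 → ℕ} {inv : ι → ι} (h : Cover f par K lab rk inv)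
include h

/-- if the region `o'` or the region `up o'` is in the disc then `o'` is in the closed disc -/
theorem DA_up {o : ℕ} (ho : 1 ≤ o) (hom : o ≤ par.length) {l : ℤ} (hl : l ≠ 0)
    (hlm : l.natAbs ≤ par.length) (hA : DA par o l ∨ DA par o (up par l)) :
    DB par o l ∨ l = o := by
  rcases hA with ⟨b, rfl, hb, hbm, rfl | hanc⟩ | ⟨b, hlb, hb, hbm, hanc⟩
  · exact Or.inr rfl
  · exact Or.inl ⟨b, rfl, hb, hbm, hanc⟩
  · left
    have hpos : 0 < l := by
      by_contra hcon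
      have h1 := up_nonneg h (l := -l) (by omega) (by omega)
      rw [up_neg h] at h1
      omega
    obtain ⟨c, rfl⟩ : ∃ c : ℕ, l = c := ⟨l.toNat, by omega⟩
    have hc : 1 ≤ c := by omega
    have hcm : c ≤ par.length := by omega
    rw [up_cast par hc] at hlb
    have hlb' : par.getD (c - 1) 0 = b := by exact_mod_cast hlb
    refine ⟨c, rfl, hc, hcm, ?_⟩
    rw [anc_iff h.tree o c hc hcm, hlb']
    rcases hanc with rfl | hanc
    · exact Or.inl rfl
    · exact Or.inr ⟨by omega, hanc⟩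

theorem DB_up {o : ℕ} (ho : 1 ≤ o) (hom : o ≤ par.length) {l : ℤ} (hB : DB par o l) :
    DA par o l ∧ DA par o (up par l) ∧ l ≠ o ∧ l ≠ 0 ∧ l.natAbs ≤ par.length := by
  obtain ⟨b, rfl, hb, hbm, hanc⟩ := hB
  have h1 := h.tree (b - 1) (by omega)
  have h2 := anc_lt h.tree o b hb hbm hanc
  refine ⟨⟨b, rfl, hb, hbm, Or.inr hanc⟩, ?_, by omega, by omega, by omega⟩
  rw [up_cast par hb]
  rcases (anc_iff h.tree o b hb hbm).1 hanc with h3 | ⟨h3, h4⟩
  · exact ⟨_, rfl, by omega, by omega, Or.inl h3⟩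
  · exact ⟨_, rfl, by omega, by omega, Or.inr h4⟩

end

theorem DA_pos {par : List ℕ} {o : ℕ} {l : ℤ} (hA : DA par o l) : 0 < l := by
  obtain ⟨b, rfl, hb, -, -⟩ := hA
  omega

theorem DB_pos {par : List ℕ} {o : ℕ} {l : ℤ} (hB : DB par o l) : 0 < l := by
  obtain ⟨b, rfl, hb, -, -⟩ := hB
  omega

theorem DA_range {par : List ℕ} {o : ℕ} {l : ℤ} (hA : DA par o l) : l.natAbs ≤ par.length := by
  obtain ⟨b, rfl, hb, hbm, -⟩ := hA
  omega

end A2

open A2 in
theorem cover_lifts {f : V3 → ℝ} {par : List ℕ} {ι : Type} [Finite ι] {K : ι → Set V3}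
    {lab : ι → S3 → ℤ} {rk : ι → S3 → ℕ} {inv : ι → ι} (h : Cover f par K lab rk inv) :
    ∃ Ov Dd : ℕ → Set V3, Lifts f par.length (fun a b => ancB par par.length a b = true) Ov Dd := by
  -- the complement of the two closed discs
  have hE : ∀ o : ℕ, 1 ≤ o → o ≤ par.length →
      Og f K lab o ∪ RR f K lab (DA par o) (DB par o) ∪
        (negV ⁻¹' Og f K lab o ∪ negV ⁻¹' RR f K lab (DA par o) (DB par o)) =
      RR f K lab (fun l => DA par o l ∨ DA par o (-l))
        (fun l => (DB par o l ∨ l = o) ∨ (DB par o (-l) ∨ -l = o)) := by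
    intro o ho hom
    rw [og_as_RR, RR_union, RR_neg h, RR_neg h, RR_union, RR_union]
    congr 1
    · funext l
      simp
    · funext l
      simp only [eq_iff_iff]
      tauto
  have hclosed : ∀ o : ℕ, 1 ≤ o → o ≤ par.length → ∀ l : ℤ, l ≠ 0 → l.natAbs ≤ par.length →
      ((DA par o l ∨ DA par o (-l)) ∨ (DA par o (up par l) ∨ DA par o (-up par l))) →
      (DB par o l ∨ l = o) ∨ (DB par o (-l) ∨ -l = o) := by
    intro o ho hom l hl hlm hA
    rcases hA with (h1 | h1) | (h1 | h1)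
    · exact Or.inl (DA_up h ho hom hl hlm (Or.inl h1))
    · exact Or.inr (DA_up h ho hom (l := -l) (by omega) (by omega) (Or.inl h1))
    · exact Or.inl (DA_up h ho hom hl hlm (Or.inr h1))
    · refine Or.inr (DA_up h ho hom (l := -l) (by omega) (by omega) (Or.inr ?_))
      rwa [up_neg h]
  refine ⟨fun o => Og f K lab (o : ℤ), fun o => RR f K lab (DA par o) (DB par o), ?_⟩
  constructor
  · intro o ho hom
    exact og_closed h _
  · intro o ho hom
    exact og_conn h (by omega) (by omega)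
  · -- dOpen
    intro o ho hom
    rw [← isClosed_compl_iff, RR_compl h]
    refine closed_of h _ _ ?_
    intro l hl hlm hA
    refine ⟨hl, hlm, fun hB => ?_⟩
    obtain ⟨h1, h2, -⟩ := DB_up h ho hom hB
    rcases hA with h3 | h3
    · exact h3.2 h1
    · exact h3.2 h2
  · -- dConn
    intro o ho hom
    refine conn_of h _ _ (o : ℤ) ⟨o, rfl, ho, hom, Or.inl rfl⟩ (fun l hl => DA_range hl) ?_ ?_
    · intro l hB
      obtain ⟨h1, -, h2, -⟩ := DB_up h ho hom hB
      exact ⟨h1, h2⟩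
    · rintro l ⟨b, rfl, hb, hbm, hor⟩ hlo
      have hanc : ancB par par.length o b = true := by
        rcases hor with h1 | h1
        · exact absurd (by rw [h1]) hlo
        · exact h1
      have hB : DB par o (b : ℤ) := ⟨b, rfl, hb, hbm, hanc⟩
      exact ⟨by omega, hB, (DB_up h ho hom hB).2.1⟩
  · -- oCone
    intro o x r hr hx
    exact og_cone h _ x r hr hx
  · -- dCone
    rintro o x r hr (⟨l, hA, hx⟩ | ⟨l, hB, hx⟩)
    · exact Or.inl ⟨l, hA, rg_cone h l x r hr hx⟩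
    · exact Or.inr ⟨l, hB, og_cone h l x r hr hx⟩
  · -- od
    intro o ho hom
    show Disjoint (Og f K lab (o : ℤ)) (RR f K lab (DA par o) (DB par o))
    rw [og_as_RR]
    refine RR_disj h (fun l hl => hl.elim) ?_
    rintro l rfl hB
    exact (DB_up h ho hom hB).2.2.1 rfl
  · -- od'
    intro o ho hom
    show Disjoint (Og f K lab (o : ℤ)) (negV ⁻¹' RR f K lab (DA par o) (DB par o))
    rw [og_as_RR, RR_neg h]
    refine RR_disj h (fun l hl => hl.elim) ?_
    rintro l rfl hB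
    have := DB_pos hB
    omega
  · -- oo
    intro o ho hom
    show Disjoint (Og f K lab (o : ℤ)) (negV ⁻¹' Og f K lab (o : ℤ))
    rw [og_as_RR, RR_neg h]
    refine RR_disj h (fun l hl => hl.elim) ?_
    rintro l rfl hB
    omega
  · -- dd
    intro o ho hom
    show Disjoint (RR f K lab (DA par o) (DB par o)) (negV ⁻¹' RR f K lab (DA par o) (DB par o))
    rw [RR_neg h]
    refine RR_disj h ?_ ?_
    · intro l h1 h2
      have := DA_pos h1
      have := DA_pos h2
      omega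
    · intro l h1 h2
      have := DB_pos h1
      have := DB_pos h2
      omega
  · -- extOpen
    intro o ho hom
    show IsOpen (Og f K lab o ∪ RR f K lab (DA par o) (DB par o) ∪
        (negV ⁻¹' Og f K lab o ∪ negV ⁻¹' RR f K lab (DA par o) (DB par o)))ᶜ
    rw [hE o ho hom, isOpen_compl_iff]
    exact closed_of h _ _ (hclosed o ho hom)
  · -- extConn
    intro o ho hom
    show IsConnected (Og f K lab o ∪ RR f K lab (DA par o) (DB par o) ∪
        (negV ⁻¹' Og f K lab o ∪ negV ⁻¹' RR f K lab (DA par o) (DB par o)))ᶜ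
    rw [hE o ho hom, RR_compl h]
    have hBA : ∀ l : ℤ, ((DB par o l ∨ l = o) ∨ (DB par o (-l) ∨ -l = o)) →
        (DA par o l ∨ DA par o (-l)) := by
      rintro l ((h1 | h1) | (h1 | h1))
      · exact Or.inl (DB_up h ho hom h1).1
      · exact Or.inl ⟨o, h1, ho, hom, Or.inl rfl⟩
      · exact Or.inr (DB_up h ho hom h1).1
      · exact Or.inr ⟨o, h1, ho, hom, Or.inl rfl⟩
    refine conn_of h _ _ 0 ⟨by simp, ?_⟩ (fun l hl => hl.1) ?_ ?_
    · rintro (h1 | h1)
      · have := DA_pos h1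
        omega
      · have := DA_pos h1
        omega
    · intro l hl
      exact ⟨⟨hl.2.1, fun h1 => hl.2.2 (hclosed o ho hom l hl.1 hl.2.1 (Or.inl h1))⟩, hl.1⟩
    · intro l hl hl0
      refine ⟨hl0, ⟨hl0, hl.1, fun h1 => hl.2 (hBA l h1)⟩, ?_, ?_⟩
      · have := up_abs h hl0 hl.1
        have := hl.1
        omega
      · intro h1
        exact hl.2 (hBA l (hclosed o ho hom l hl0 hl.1 (Or.inr h1)))
  · -- oo2
    intro o o' ho hom ho' hom' hne
    exact og_og h (by exact_mod_cast hne)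
  · -- oo2'
    intro o o' ho hom ho' hom' hne
    show Disjoint (Og f K lab (o : ℤ)) (negV ⁻¹' Og f K lab (o' : ℤ))
    rw [og_as_RR, og_as_RR f K lab (o' : ℤ), RR_neg h]
    refine RR_disj h (fun l hl => hl.elim) ?_
    rintro l rfl hB
    omega
  · -- zero
    intro x
    constructor
    · intro hx
      obtain ⟨o, ho, hom, hxo⟩ := og_cover h hx
      rcases lt_or_gt_of_ne ho with hneg | hpos
      · refine ⟨(-o).toNat, by omega, by omega, Or.inr ?_⟩
        have h1 : (((-o).toNat : ℕ) : ℤ) = -o := by omega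
        show negV x ∈ Og f K lab (((-o).toNat : ℕ) : ℤ)
        rw [h1]
        exact (og_neg h o x).2 hxo
      · refine ⟨o.toNat, by omega, by omega, Or.inl ?_⟩
        have h1 : ((o.toNat : ℕ) : ℤ) = o := by omega
        show x ∈ Og f K lab ((o.toNat : ℕ) : ℤ)
        rw [h1]
        exact hxo
    · rintro ⟨o, -, -, ⟨i, -, hx, -⟩ | ⟨i, -, hx, -⟩⟩
      · exact hx
      · rw [← h.fneg x]
        exact hx
  · -- nest
    intro o o' ho hom ho' hom' hanc x hx
    exact Or.inr ⟨o', ⟨o', rfl, ho', hom', hanc⟩, hx⟩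
  · -- nest'
    intro o o' ho hom ho' hom' hanc
    show Disjoint (Og f K lab (o' : ℤ)) (RR f K lab (DA par o) (DB par o))
    rw [og_as_RR]
    refine RR_disj h (fun l hl => hl.elim) ?_
    rintro l rfl ⟨b, hb, -, -, hb2⟩
    have : o' = b := by exact_mod_cast hb
    rw [← this] at hb2
    exact hanc hb2
  · -- nest2
    intro o o' ho hom ho' hom'
    show Disjoint (Og f K lab (o' : ℤ)) (negV ⁻¹' RR f K lab (DA par o) (DB par o))
    rw [og_as_RR, RR_neg h]
    refine RR_disj h (fun l hl => hl.elim) ?_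
    rintro l rfl hB
    have := DB_pos hB
    omega

end Oct
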