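import Pool.Agent.helper70.Oct.Defs

set_option autoImplicit false

/-!
# Module OCT-L: almost all the members of a pencil spanned by a Fermat form are nonsingular
-/

open MvPolynomial Set Filter Topology

namespace Oct

namespace LMod

/-- an exponent `≥ d - 1` -/
theorem exists_big {d : ℕ} (hd : 2 ≤ d) {m : Fin 3 →₀ ℕ} (hm : ∑ i, m i = 3 * (d - 2) + 1) :
    ∃ i, d - 1 ≤ m i := by
  by_contra hcon
  push Not at hcon
  have h : ∑ i, m i ≤ ∑ _i : Fin 3, (d - 2) :=
    Finset.sum_le_sum fun i _ => by have := hcon i; omega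
  rw [Finset.sum_const, Finset.card_univ, Fintype.card_fin, smul_eq_mul] at h
  omega

open Classical in
/-- a chosen exponent `≥ d - 1` -/
noncomputable def idx (d : ℕ) (m : Fin 3 →₀ ℕ) : Fin 3 :=
  if h : ∃ i, d - 1 ≤ m i then Classical.choose h else 0

theorem idx_spec {d : ℕ} (hd : 2 ≤ d) {m : Fin 3 →₀ ℕ} (hm : ∑ i, m i = 3 * (d - 2) + 1) :
    d - 1 ≤ m (idx d m) := by
  have h := exists_big hd hm
  unfold idx
  rw [dif_pos h]
  exact Classical.choose_spec h

/-- `m - (d-1) e_i` -/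
noncomputable def red (d : ℕ) (m : Fin 3 →₀ ℕ) : Fin 3 →₀ ℕ :=
  m - Finsupp.single (idx d m) (d - 1)

theorem red_add {d : ℕ} (hd : 2 ≤ d) {m : Fin 3 →₀ ℕ} (hm : ∑ i, m i = 3 * (d - 2) + 1) :
    red d m + Finsupp.single (idx d m) (d - 1) = m := by
  unfold red
  rw [tsub_add_cancel_of_le]
  rw [Finsupp.single_le_iff]
  exact idx_spec hd hm

/-- the polynomial `x^{m'} ∂_i F` -/
noncomputable def PP (F : MvPolynomial (Fin 3) ℝ) (d : ℕ) (m : Fin 3 →₀ ℕ) :
    MvPolynomial (Fin 3) ℝ :=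
  monomial (red d m) 1 * pderiv (idx d m) F

theorem PP_hom {F : MvPolynomial (Fin 3) ℝ} {d : ℕ} (hF : F.IsHomogeneous d) (hd : 2 ≤ d)
    {m : Fin 3 →₀ ℕ} (hm : ∑ i, m i = 3 * (d - 2) + 1) :
    (PP F d m).IsHomogeneous (3 * (d - 2) + 1) := by
  have h1 : (monomial (red d m) (1 : ℝ)).IsHomogeneous (2 * (d - 2)) := by
    apply isHomogeneous_monomial
    have h2 := red_add hd hm
    have h3 : (red d m + Finsupp.single (idx d m) (d - 1)).degree = m.degree := by rw [h2]
    rw [map_add, Finsupp.degree_single] at h3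
    have h4 : m.degree = ∑ i, m i := by
      rw [Finsupp.degree_eq_sum]
    omega
  have h2 := h1.mul (hF.pderiv (i := idx d m))
  have h3 : 2 * (d - 2) + (d - 1) = 3 * (d - 2) + 1 := by omega
  rw [h3] at h2
  exact h2

/-- exponents of degree `N` -/
abbrev SS (d : ℕ) : Type := ↥(Finset.finsuppAntidiag (Finset.univ : Finset (Fin 3)) (3 * (d - 2) + 1))

theorem SS_sum {d : ℕ} (m : SS d) : ∑ i, m.1 i = 3 * (d - 2) + 1 :=
  (Finset.mem_finsuppAntidiag.1 m.2).1

/-- the matrix -/
noncomputable def AA (F : MvPolynomial (Fin 3) ℝ) (d : ℕ) : Matrix (SS d) (SS d) ℂ :=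
  Matrix.of fun m m' => ((coeff m'.1 (PP F d m.1) : ℝ) : ℂ)

/-- the vector of the monomials of degree `N` -/
noncomputable def ww (d : ℕ) (x : Fin 3 → ℂ) (m : SS d) : ℂ := ∏ i, x i ^ m.1 i

theorem AA_mulVec {F : MvPolynomial (Fin 3) ℝ} {d : ℕ} (hF : F.IsHomogeneous d) (hd : 2 ≤ d)
    (x : Fin 3 → ℂ) (m : SS d) : (AA F d).mulVec (ww d x) m = aeval x (PP F d m.1) := by
  have h := PP_hom hF hd (SS_sum m)
  rw [aeval_def, eval₂_eq']
  unfold Matrix.mulVec dotProduct AA ww
  simp only [Matrix.of_apply]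
  have h1 : (PP F d m.1).support ⊆
      Finset.finsuppAntidiag (Finset.univ : Finset (Fin 3)) (3 * (d - 2) + 1) := by
    intro k hk
    rw [Finset.mem_finsuppAntidiag]
    refine ⟨?_, Finset.subset_univ _⟩
    have h2 := h (mem_support_iff.1 hk)
    rw [Finsupp.weight_apply] at h2
    simp only [Pi.one_apply, smul_eq_mul, mul_one] at h2
    rw [Finsupp.sum_fintype _ _ (fun _ => rfl)] at h2
    exact h2
  rw [Finset.sum_coe_sort (Finset.finsuppAntidiag (Finset.univ : Finset (Fin 3)) (3 * (d - 2) + 1))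
    (fun k => ((coeff k (PP F d m.1) : ℝ) : ℂ) * ∏ i, x i ^ k i)]
  refine (Finset.sum_subset h1 ?_).symm
  intro k _ hk
  rw [notMem_support_iff.1 hk]
  simp

theorem pderiv_fermat (d : ℕ) (i : Fin 3) :
    pderiv i (X 0 ^ d + X 1 ^ d + X 2 ^ d : MvPolynomial (Fin 3) ℝ) =
      C (d : ℝ) * X i ^ (d - 1) := by
  have h : ∀ j : Fin 3, pderiv i (X j ^ d : MvPolynomial (Fin 3) ℝ) =
      if j = i then C (d : ℝ) * X i ^ (d - 1) else 0 := by
    intro j
    rw [pderiv_pow]
    by_cases hj : j = i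
    · subst hj
      rw [pderiv_X_self, if_pos rfl]
      simp
    · rw [pderiv_X_of_ne (by simpa using hj), if_neg hj, mul_zero]
  rw [map_add, map_add, h, h, h]
  fin_cases i <;> simp

theorem eigen {F : MvPolynomial (Fin 3) ℝ} {d : ℕ} (hF : F.IsHomogeneous d)
    (hd : 2 ≤ d) {ε : ℝ} (h : ¬ Nonsingular (F + C ε * (X 0 ^ d + X 1 ^ d + X 2 ^ d))) :
    Module.End.HasEigenvalue (Matrix.toLin' (AA F d)) (-((ε : ℂ) * d)) := by
  unfold Nonsingular at h
  push Not at h
  obtain ⟨x, hx, -, hp⟩ := h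
  have hp' : ∀ i, aeval x (pderiv i F) = -((ε : ℂ) * d) * x i ^ (d - 1) := by
    intro i
    have h1 := hp i
    rw [map_add, map_add, Derivation.leibniz, pderiv_C, smul_zero, add_zero, smul_eq_mul,
      pderiv_fermat] at h1
    simp only [map_mul, map_pow, aeval_X, algHom_C, Complex.coe_algebraMap] at h1
    rw [eq_neg_of_add_eq_zero_left h1]
    push_cast
    ring
  have hw : (AA F d).mulVec (ww d x) = (-((ε : ℂ) * d)) • ww d x := by
    funext m
    rw [AA_mulVec hF hd]
    unfold PP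
    rw [map_mul, hp', aeval_monomial, map_one, one_mul, Pi.smul_apply, smul_eq_mul]
    unfold ww
    rw [Finsupp.prod_fintype _ _ (fun _ => pow_zero _)]
    conv_rhs => rw [← red_add hd (SS_sum m)]
    simp only [Finsupp.add_apply, pow_add, Finset.prod_mul_distrib]
    have h3 : ∏ i, x i ^ (Finsupp.single (idx d m.1) (d - 1)) i = x (idx d m.1) ^ (d - 1) := by
      rw [Finset.prod_eq_single (idx d m.1)]
      · rw [Finsupp.single_eq_same]
      · intro j _ hj
        rw [Finsupp.single_eq_of_ne hj, pow_zero]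
      · intro h; exact absurd (Finset.mem_univ _) h
    rw [h3]
    ring
  have hw0 : ww d x ≠ 0 := by
    obtain ⟨j, hj⟩ := Function.ne_iff.1 hx
    intro h0
    have hmem : Finsupp.single j (3 * (d - 2) + 1) ∈
        Finset.finsuppAntidiag (Finset.univ : Finset (Fin 3)) (3 * (d - 2) + 1) := by
      rw [Finset.mem_finsuppAntidiag]
      refine ⟨?_, Finset.subset_univ _⟩
      rw [Finset.sum_eq_single j]
      · exact Finsupp.single_eq_same
      · intro k _ hk
        exact Finsupp.single_eq_of_ne hk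
      · intro h; exact absurd (Finset.mem_univ _) h
    have h1 := congrFun h0 ⟨_, hmem⟩
    unfold ww at h1
    simp only [Pi.zero_apply] at h1
    rw [Finset.prod_eq_single j] at h1
    · rw [Finsupp.single_eq_same] at h1
      exact hj (pow_eq_zero_iff (by omega) |>.1 h1)
    · intro k _ hk
      rw [Finsupp.single_eq_of_ne hk, pow_zero]
    · intro h; exact absurd (Finset.mem_univ _) h
  refine Module.End.hasEigenvalue_of_hasEigenvector (x := ww d x) ⟨?_, hw0⟩
  rw [Module.End.mem_eigenspace_iff, Matrix.toLin'_apply]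
  exact hw

end LMod

theorem nonsing_generic {F : MvPolynomial (Fin 3) ℝ} {d : ℕ} (hF : F.IsHomogeneous d)
    (hd : 2 ≤ d) :
    {ε : ℝ | ¬ Nonsingular (F + C ε * (X 0 ^ d + X 1 ^ d + X 2 ^ d))}.Finite := by
  have h1 : Set.Finite (Module.End.HasEigenvalue (Matrix.toLin' (LMod.AA F d))) :=
    Module.End.finite_hasEigenvalue _
  refine Set.Finite.subset (Set.Finite.preimage (f := fun ε : ℝ => -((ε : ℂ) * d)) ?_ h1) ?_
  · intro a _ b _ hab
    have hd0 : (d : ℂ) ≠ 0 := by
      have : d ≠ 0 := by omega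
      exact_mod_cast this
    simp only [neg_inj] at hab
    exact_mod_cast mul_right_cancel₀ hd0 hab
  · intro ε hε
    exact LMod.eigen hF hd hε

end Oct
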